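import Mathlib
import Pool.Agent.PDN.Stmts

set_option autoImplicit false

namespace Pool.Agent.PDN.H43

open Pool.Agent.PDN

theorem oct (lnk : LnkStmt) : OctStmt := by
  classical
  intro V _ T t n₁ n₂ n₃ n₄ _ h12 h23 h34 h41 d2 d3 d4
  -- at n₃
  obtain ⟨m2, m3, y, g1, g2, g3, g4, e1, e2, e3, e4, e5, e6, -⟩ :=
    lnk V T n₃ n₄ d3 ⟨t, T.cyc (T.cyc (T.cyc (T.cyc h34)))⟩
  have k1 : T.f n₃ n₄ t := T.cyc h34
  have k2 : T.f n₃ t n₂ := T.cyc (T.cyc h23)
  have hm2 : m2 = t := T.uniq g1 k1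
  subst hm2
  have hm3 : m3 = n₂ := T.uniq g2 k2
  subst hm3
  -- at n₂
  have q1 : T.f m3 y n₃ := T.cyc g3
  have q2 : T.f m3 n₃ m2 := T.cyc h23
  have q3 : T.f m3 m2 n₁ := T.cyc (T.cyc h12)
  have q4 : T.f m3 n₁ y := by
    obtain ⟨a, b, c, f1, f2, f3, f4, -⟩ := lnk V T m3 y d2 ⟨n₃, q1⟩
    have ha : a = n₃ := T.uniq f1 q1
    subst ha
    have hb : b = m2 := T.uniq f2 q2
    subst hb
    have hc : c = n₁ := T.uniq f3 q3
    subst hc
    exact f4
  -- at n₄
  have p1 : T.f n₄ n₁ m2 := T.cyc h41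
  have p2 : T.f n₄ m2 n₃ := T.cyc (T.cyc h34)
  have p3 : T.f n₄ n₃ y := T.cyc (T.cyc g4)
  have p4 : T.f n₄ y n₁ := by
    obtain ⟨a, b, c, f1, f2, f3, f4, -⟩ := lnk V T n₄ n₁ d4 ⟨m2, p1⟩
    have ha : a = m2 := T.uniq f1 p1
    subst ha
    have hb : b = n₃ := T.uniq f2 p2
    subst hb
    have hc : c = y := T.uniq f3 p3
    subst hc
    exact f4
  -- at n₁
  have r1 : T.f n₁ m3 m2 := T.cyc h12
  have r2 : T.f n₁ m2 n₄ := T.cyc (T.cyc h41)
  have r3 : T.f n₁ n₄ y := T.cyc (T.cyc p4)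
  have r4 : T.f n₁ y m3 := T.cyc q4
  have hcl : ∀ v, Relation.ReflTransGen (T.f n₁) m3 v → v = m3 ∨ v = m2 ∨ v = n₄ ∨ v = y := by
    intro v hv
    induction hv with
    | refl => exact Or.inl rfl
    | tail _ hbc ih =>
      rcases ih with h | h | h | h
      · subst h
        exact Or.inr (Or.inl (T.uniq hbc r1))
      · subst h
        exact Or.inr (Or.inr (Or.inl (T.uniq hbc r2)))
      · subst h
        exact Or.inr (Or.inr (Or.inr (T.uniq hbc r3)))
      · subst h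
        exact Or.inl (T.uniq hbc r4)
  have hset : {v : V | T.Adj n₁ v} = (({m3, m2, n₄, y} : Finset V) : Set V) := by
    ext v
    simp only [Set.mem_ofPred_eq, Finset.coe_insert, Finset.coe_singleton, Set.mem_insert_iff,
      Set.mem_singleton_iff]
    constructor
    · intro hv
      exact hcl v (T.link ⟨m2, r1⟩ hv)
    · rintro (h | h | h | h)
      · subst h; exact ⟨_, r1⟩
      · subst h; exact ⟨_, r2⟩
      · subst h; exact ⟨_, r3⟩
      · subst h; exact ⟨_, r4⟩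
  have hcard : ({m3, m2, n₄, y} : Finset V).card = 4 := by
    rw [Finset.card_insert_of_notMem, Finset.card_insert_of_notMem, Finset.card_insert_of_notMem,
      Finset.card_singleton]
    · simpa using e3
    · simp only [Finset.mem_insert, Finset.mem_singleton, not_or]
      exact ⟨Ne.symm e1, e5⟩
    · simp only [Finset.mem_insert, Finset.mem_singleton, not_or]
      exact ⟨Ne.symm e4, Ne.symm e2, e6⟩
  have : T.deg n₁ = {v : V | T.Adj n₁ v}.ncard := by
    unfold Tri.deg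
    exact Nat.card_coe_set_eq {v : V | T.Adj n₁ v}
  rw [this, hset, Set.ncard_coe_finset, hcard]

end Pool.Agent.PDN.H43
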