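import Mathlib
import Pool.Agent.PDN.Stmts

set_option autoImplicit false

namespace Pool.Agent.PDN.H43

open Pool.Agent.PDN

private theorem abs_sgn_mul {s x : ℤ} (h : s = 1 ∨ s = -1) : |s * x| = |x| := by
  rcases h with h | h <;> simp [h]

theorem ari : AriStmt := by
  classical
  intro n a s₁ s₂ s₃ h1 h2 h3 hb
  set A : ℤ := ∑ i, (a i : ℤ) with hA
  have hA0 : 0 ≤ A := Finset.sum_nonneg fun i _ => Int.natCast_nonneg _
  have hK : ((Kc a : ℕ) : ℤ) = A + 1 := by
    simp [Kc, hA]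
  set K : ℤ := A + 1 with hKd
  have hM : ((Mc n : ℕ) : ℤ) = 12 * ((n : ℤ) + 1) ^ 2 := by
    simp [Mc]
  set M : ℤ := 12 * ((n : ℤ) + 1) ^ 2 with hMd
  set X : ℤ := ∑ i, s₁ i * (K + (a i : ℤ)) with hX
  set Y : ℤ := ∑ i, s₂ i * K with hY
  set Z : ℤ := (s₃ 0 + s₃ 1) * ((2 * (n : ℤ) + 1) * K) with hZ
  have e1 : ∑ i, s₁ i * ((Mc n * (Kc a + a i) : ℕ) : ℤ) = M * X := by
    rw [hX, Finset.mul_sum]
    refine Finset.sum_congr rfl fun i _ => ?_
    push_cast
    rw [hK, hM]
    ring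
  have e2 : ∑ i, s₂ i * ((Mc n * Kc a : ℕ) : ℤ) = M * Y := by
    rw [hY, Finset.mul_sum]
    refine Finset.sum_congr rfl fun i _ => ?_
    push_cast
    rw [hK, hM]
    ring
  have e3 : ∑ i, s₃ i * ((Mc n * ((2 * n + 1) * Kc a) : ℕ) : ℤ) = M * Z := by
    rw [hZ, Fin.sum_univ_two]
    push_cast
    rw [hK, hM]
    ring
  rw [e1, e2, e3, ← mul_add, ← mul_add, abs_mul] at hb
  have hn : (0 : ℤ) ≤ n := Int.natCast_nonneg n
  have hMpos : 0 < M := by
    rw [hMd]
    positivity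
  have hz : X + Y + Z = 0 := by
    by_contra hne
    have h1' : (1 : ℤ) ≤ |X + Y + Z| := Int.one_le_abs hne
    have h2' : M ≤ |M| * |X + Y + Z| := by
      rw [abs_of_pos hMpos]
      nlinarith
    have h3' := le_trans h2' hb
    push_cast at h3'
    rw [hMd] at h3'
    nlinarith
  -- bounds
  have bX : |X| ≤ n * K + A := by
    calc |X| ≤ ∑ i, |s₁ i * (K + (a i : ℤ))| := Finset.abs_sum_le_sum_abs _ _
      _ = ∑ i : Fin n, (K + (a i : ℤ)) := by
        refine Finset.sum_congr rfl fun i _ => ?_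
        rw [abs_sgn_mul (h1 i)]
        apply abs_of_nonneg
        have : (0 : ℤ) ≤ (a i : ℤ) := Int.natCast_nonneg _
        omega
      _ = n * K + A := by
        rw [Finset.sum_add_distrib]
        simp [hA]
  have bY : |Y| ≤ n * K := by
    calc |Y| ≤ ∑ i, |s₂ i * K| := Finset.abs_sum_le_sum_abs _ _
      _ = ∑ i : Fin n, K := by
        refine Finset.sum_congr rfl fun i _ => ?_
        rw [abs_sgn_mul (h2 i)]
        apply abs_of_nonneg
        omega
      _ = n * K := by simp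
  have hKpos : 0 < K := by omega
  have hXY : |X + Y| < (2 * (n : ℤ) + 1) * K := by
    calc |X + Y| ≤ |X| + |Y| := abs_add_le _ _
      _ ≤ n * K + A + n * K := by linarith
      _ < (2 * (n : ℤ) + 1) * K := by
        have : A < K := by omega
        nlinarith
  have hs3 : s₃ 0 + s₃ 1 = 0 := by
    have hZe : Z = -(X + Y) := by omega
    have hZb : |Z| < (2 * (n : ℤ) + 1) * K := by rw [hZe, abs_neg]; exact hXY
    have hpos : 0 < (2 * (n : ℤ) + 1) * K := by positivity
    rw [hZ, abs_mul, abs_of_pos hpos] at hZb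
    have h4 : |s₃ 0 + s₃ 1| < 1 := by
      by_contra hc
      push Not at hc
      nlinarith
    exact Int.abs_lt_one_iff.mp h4
  have hZ0 : Z = 0 := by rw [hZ, hs3, zero_mul]
  -- Σ s₁ a = 0
  set W : ℤ := ∑ i, s₁ i * (a i : ℤ) with hW
  have hXe : X = (∑ i, s₁ i) * K + W := by
    rw [hX, hW, Finset.sum_mul, ← Finset.sum_add_distrib]
    refine Finset.sum_congr rfl fun i _ => ?_
    ring
  have hYe : Y = (∑ i, s₂ i) * K := by
    rw [hY, Finset.sum_mul]
  have bW : |W| < K := by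
    calc |W| ≤ ∑ i, |s₁ i * (a i : ℤ)| := Finset.abs_sum_le_sum_abs _ _
      _ = ∑ i : Fin n, (a i : ℤ) := by
        refine Finset.sum_congr rfl fun i _ => ?_
        rw [abs_sgn_mul (h1 i)]
        exact abs_of_nonneg (Int.natCast_nonneg _)
      _ < K := by rw [← hA]; omega
  have hW0 : W = 0 := by
    have hdvd : K ∣ W := by
      refine ⟨-((∑ i, s₁ i) + ∑ i, s₂ i), ?_⟩
      have : (∑ i, s₁ i) * K + W + (∑ i, s₂ i) * K = 0 := by
        rw [← hXe, ← hYe]; omega
      linarith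
    exact Int.eq_zero_of_abs_lt_dvd hdvd bW
  refine ⟨Finset.univ.filter fun i => s₁ i = 1, ?_⟩
  set S : Finset (Fin n) := Finset.univ.filter fun i => s₁ i = 1 with hS
  have hsplit : W = ∑ i ∈ S, (a i : ℤ) - ∑ i ∈ Sᶜ, (a i : ℤ) := by
    rw [hW, ← Finset.sum_add_sum_compl S, sub_eq_add_neg, ← Finset.sum_neg_distrib]
    congr 1
    · refine Finset.sum_congr rfl fun i hi => ?_
      have : s₁ i = 1 := by simpa [hS] using hi
      rw [this, one_mul]
    · refine Finset.sum_congr rfl fun i hi => ?_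
      have hne : s₁ i ≠ 1 := by simpa [hS] using hi
      have : s₁ i = -1 := (h1 i).resolve_left hne
      rw [this]
      ring
  rw [hW0] at hsplit
  have : ((∑ i ∈ S, a i : ℕ) : ℤ) = ((∑ i ∈ Sᶜ, a i : ℕ) : ℤ) := by
    push_cast
    linarith
  exact_mod_cast this

end Pool.Agent.PDN.H43
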